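import Pool.Agent.Lib.MP_688fd0_co.OSF.Iface
import Pool.Agent.Lib.MP_688fd0_co.Posa

/-!
The graph of the lines of `a` with bands (module BANDS).
-/

set_option autoImplicit false

namespace Pool.Agent.Lib.MP_688fd0_co.OSF

universe u v

section

variable {Q : Type u} [Group Q] {B : Lb.{u, v} Q} {a : B.L}

theorem rung_symm {l : List (Q × B.L)} {x y : Q} (h : Rung a l x y) : Rung a l y x := by
  obtain ⟨b, hb, h⟩ := h
  exact ⟨b, hb, by tauto⟩

theorem edg_symm {l : List (Q × B.L)} {x y : Q} (h : Edg a l x y) : Edg a l y x := by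
  rcases h with h | h | h
  · exact Or.inr (Or.inl h)
  · exact Or.inl h
  · exact Or.inr (Or.inr (rung_symm h))

/-- The points of one band are distinct. -/
theorem band_ne {b : Q × B.L} (h : (bv a b).Nodup) :
    b.1 ≠ b.1 * B.q a ∧ b.1 ≠ b.1 * B.q b.2 ∧ b.1 ≠ b.1 * B.q a * B.q b.2 ∧
      b.1 * B.q a ≠ b.1 * B.q b.2 ∧ b.1 * B.q a ≠ b.1 * B.q a * B.q b.2 ∧
      b.1 * B.q b.2 ≠ b.1 * B.q a * B.q b.2 := by
  unfold bv at h
  simp only [List.nodup_cons, List.mem_cons, List.not_mem_nil, or_false, not_or] at h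
  tauto

/-- Two different bands are disjoint. -/
theorem band_eq {l : List (Q × B.L)} (h : (l.flatMap (bv a)).Nodup) {b b' : Q × B.L}
    (hb : b ∈ l) (hb' : b' ∈ l) {x : Q} (hx : x ∈ bv a b) (hx' : x ∈ bv a b') : b = b' := by
  by_contra hne
  rw [List.nodup_flatMap] at h
  have hs : Std.Symm (Function.onFun List.Disjoint (bv a)) :=
    ⟨fun _ _ hxy => List.Disjoint.symm hxy⟩
  have h2 := h.2.forall hb hb' hne
  exact h2 hx hx'

theorem mem_bv {b : Q × B.L} {x : Q} : x ∈ bv a b ↔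
    x = b.1 ∨ x = b.1 * B.q a ∨ x = b.1 * B.q b.2 ∨ x = b.1 * B.q a * B.q b.2 := by
  unfold bv
  simp only [List.mem_cons, List.not_mem_nil, or_false]

theorem rung_unique {l : List (Q × B.L)} (h : (l.flatMap (bv a)).Nodup) {x y y' : Q}
    (hy : Rung a l x y) (hy' : Rung a l x y') : y = y' := by
  obtain ⟨b, hb, h1⟩ := hy
  obtain ⟨b', hb', h1'⟩ := hy'
  have hbb : b = b' := by
    refine band_eq h hb hb' (x := x) ?_ ?_ <;> rw [mem_bv] <;> tauto
  subst hbb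
  have hn := band_ne ((List.nodup_flatMap.1 h).1 b hb)
  obtain ⟨n1, n2, n3, n4, n5, n6⟩ := hn
  rcases h1 with ⟨e1, e2⟩ | ⟨e1, e2⟩ | ⟨e1, e2⟩ | ⟨e1, e2⟩ <;>
  rcases h1' with ⟨f1, f2⟩ | ⟨f1, f2⟩ | ⟨f1, f2⟩ | ⟨f1, f2⟩ <;>
  first
    | exact e2.trans f2.symm
    | exact e1.trans f1.symm
    | exact absurd (e1.symm.trans f2) (by assumption)
    | exact absurd (e2.symm.trans f1) (by assumption)
    | exact absurd (f1.symm.trans e2) (by assumption)
    | exact absurd (e1.symm.trans f1) (by assumption)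
    | exact absurd (f1.symm.trans e1) (by assumption)
    | exact absurd (e2.symm.trans f2) (by assumption)
    | exact absurd (f2.symm.trans e2) (by assumption)

/-- Right points of the bands. -/
def Rgt (a : B.L) (l : List (Q × B.L)) (x : Q) : Prop :=
  ∃ b ∈ l, x = b.1 * B.q a ∨ x = b.1 * B.q a * B.q b.2

theorem rem_rgt (hc : Cen a) {l : List (Q × B.L)} {x : Q} : Rem l x ↔ Rgt a l (x * B.q a) := by
  constructor
  · rintro ⟨b, hb, h | h⟩
    · exact ⟨b, hb, Or.inl (by rw [h])⟩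
    · refine ⟨b, hb, Or.inr ?_⟩
      rw [h, mul_assoc, hc (B.q b.2), mul_assoc]
  · rintro ⟨b, hb, h | h⟩
    · exact ⟨b, hb, Or.inl (mul_right_cancel h)⟩
    · refine ⟨b, hb, Or.inr ?_⟩
      rw [mul_assoc, ← hc (B.q b.2), ← mul_assoc] at h
      exact mul_right_cancel h

theorem rem_rgt_false {l : List (Q × B.L)} (h : (l.flatMap (bv a)).Nodup) {x : Q}
    (h1 : Rem l x) (h2 : Rgt a l x) : False := by
  obtain ⟨b, hb, h1⟩ := h1
  obtain ⟨b', hb', h2⟩ := h2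
  have hbb : b = b' := by
    refine band_eq h hb hb' (x := x) ?_ ?_ <;> rw [mem_bv] <;> tauto
  subst hbb
  have hn := band_ne ((List.nodup_flatMap.1 h).1 b hb)
  obtain ⟨n1, n2, n3, n4, n5, n6⟩ := hn
  rcases h1 with e | e <;> rcases h2 with f | f
  · exact n1 (e.symm.trans f)
  · exact n3 (e.symm.trans f)
  · exact n4 (f.symm.trans e)
  · exact n6 (e.symm.trans f)

theorem exists_rung {l : List (Q × B.L)} {x : Q} (h : Rem l x ∨ Rgt a l x) :
    ∃ y, Rung a l x y := by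
  rcases h with ⟨b, hb, h | h⟩ | ⟨b, hb, h | h⟩
  · exact ⟨b.1 * B.q b.2, b, hb, Or.inl ⟨h, rfl⟩⟩
  · exact ⟨b.1, b, hb, Or.inr (Or.inl ⟨rfl, h⟩)⟩
  · exact ⟨b.1 * B.q a * B.q b.2, b, hb, Or.inr (Or.inr (Or.inl ⟨h, rfl⟩))⟩
  · exact ⟨b.1 * B.q a, b, hb, Or.inr (Or.inr (Or.inr ⟨rfl, h⟩))⟩

theorem rung_side {l : List (Q × B.L)} {x y : Q} (h : Rung a l x y) : Rem l x ∨ Rgt a l x := by
  obtain ⟨b, hb, h | h | h | h⟩ := h
  · exact Or.inl ⟨b, hb, Or.inl h.1⟩
  · exact Or.inl ⟨b, hb, Or.inr h.2⟩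
  · exact Or.inr ⟨b, hb, Or.inl h.1⟩
  · exact Or.inr ⟨b, hb, Or.inr h.2⟩

/-- The label of a rung. -/
theorem rung_lab {l : List (Q × B.L)} {x y : Q} (h : Rung a l x y) :
    ∃ b ∈ l, y = x * B.q b.2 ∨ x = y * B.q b.2 := by
  obtain ⟨b, hb, h | h | h | h⟩ := h
  · exact ⟨b, hb, Or.inl (by rw [h.1, h.2])⟩
  · exact ⟨b, hb, Or.inr (by rw [h.1, h.2])⟩
  · exact ⟨b, hb, Or.inl (by rw [h.1, h.2])⟩
  · exact ⟨b, hb, Or.inr (by rw [h.1, h.2])⟩

theorem rung_ne (hc : Cen a) {l : List (Q × B.L)} (h : (l.flatMap (bv a)).Nodup) {x y : Q}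
    (hy : Rung a l x y) : y ≠ x * B.q a ∧ x ≠ y * B.q a := by
  obtain ⟨b, hb, h1⟩ := rung_lab hy
  have hn := band_ne ((List.nodup_flatMap.1 h).1 b hb)
  obtain ⟨n1, n2, n3, n4, n5, n6⟩ := hn
  have s1 : B.q b.2 ≠ B.q a := by
    intro e
    exact n4 (by rw [e])
  have s2 : B.q a * B.q b.2 ≠ 1 := by
    intro e
    exact n3 (by rw [mul_assoc, e, mul_one])
  have s3 : B.q b.2 * B.q a ≠ 1 := by
    rw [hc (B.q b.2)]; exact s2
  rcases h1 with h1 | h1
  · constructor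
    · intro e
      rw [h1] at e
      exact s1 (mul_left_cancel e)
    · intro e
      rw [h1, mul_assoc] at e
      exact s3 (left_eq_mul.1 e)
  · constructor
    · intro e
      rw [h1, mul_assoc] at e
      exact s3 (left_eq_mul.1 e)
    · intro e
      rw [h1] at e
      exact s1 (mul_left_cancel e)

theorem edg_iff (hc : Cen a) {l : List (Q × B.L)} {x y : Q} : Edg a l x y ↔
    (y = x * B.q a ∧ ¬ Rem l x) ∨ (y = x * (B.q a)⁻¹ ∧ ¬ Rgt a l x) ∨ Rung a l x y := by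
  have e1 : x = y * B.q a ↔ y = x * (B.q a)⁻¹ := by
    constructor
    · intro h; rw [h, mul_inv_cancel_right]
    · intro h; rw [h, inv_mul_cancel_right]
  have e2 : (x = y * B.q a ∧ ¬ Rem l y) ↔ (y = x * (B.q a)⁻¹ ∧ ¬ Rgt a l x) := by
    constructor
    · rintro ⟨h1, h2⟩
      refine ⟨e1.1 h1, ?_⟩
      rw [rem_rgt hc, ← h1] at h2
      exact h2
    · rintro ⟨h1, h2⟩
      refine ⟨e1.2 h1, ?_⟩
      rw [rem_rgt hc, ← e1.2 h1]
      exact h2
  unfold Edg
  rw [e2]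

theorem edg_two (hc : Cen a) (ha : B.q a * B.q a ≠ 1) {l : List (Q × B.L)}
    (h : (l.flatMap (bv a)).Nodup) (x : Q) :
    ∃ u v : Q, u ≠ v ∧ ∀ y, Edg a l x y ↔ (y = u ∨ y = v) := by
  by_cases h1 : Rem l x
  · have h2 : ¬ Rgt a l x := fun h2 => rem_rgt_false h h1 h2
    obtain ⟨y, hy⟩ := exists_rung (a := a) (Or.inl h1)
    refine ⟨x * (B.q a)⁻¹, y, ?_, ?_⟩
    · intro e
      apply (rung_ne hc h hy).2
      rw [← e, inv_mul_cancel_right]
    · intro z
      rw [edg_iff hc]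
      constructor
      · rintro (h3 | h3 | h3)
        · exact absurd h1 h3.2
        · exact Or.inl h3.1
        · exact Or.inr (rung_unique h h3 hy)
      · rintro (h3 | h3)
        · exact Or.inr (Or.inl ⟨h3, h2⟩)
        · exact Or.inr (Or.inr (h3 ▸ hy))
  · by_cases h2 : Rgt a l x
    · obtain ⟨y, hy⟩ := exists_rung (a := a) (Or.inr h2)
      refine ⟨x * B.q a, y, ?_, ?_⟩
      · intro e
        exact (rung_ne hc h hy).1 e.symm
      · intro z
        rw [edg_iff hc]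
        constructor
        · rintro (h3 | h3 | h3)
          · exact Or.inl h3.1
          · exact absurd h2 h3.2
          · exact Or.inr (rung_unique h h3 hy)
        · rintro (h3 | h3)
          · exact Or.inl ⟨h3, h1⟩
          · exact Or.inr (Or.inr (h3 ▸ hy))
    · refine ⟨x * B.q a, x * (B.q a)⁻¹, ?_, ?_⟩
      · intro e
        apply ha
        have := mul_left_cancel e
        nth_rewrite 1 [this]
        exact inv_mul_cancel _
      · intro z
        rw [edg_iff hc]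
        constructor
        · rintro (h3 | h3 | h3)
          · exact Or.inl h3.1
          · exact Or.inr h3.1
          · rcases rung_side h3 with h4 | h4
            · exact absurd h4 h1
            · exact absurd h4 h2
        · rintro (h3 | h3)
          · exact Or.inl ⟨h3, h1⟩
          · exact Or.inr (Or.inl ⟨h3, h2⟩)

theorem edg_irrefl {l : List (Q × B.L)} (x : Q) : ¬ Edg a l x x := by
  rintro (h | h | h)
  · exact B.ne_one a (left_eq_mul.1 h.1)
  · exact B.ne_one a (left_eq_mul.1 h.1)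
  · obtain ⟨b, -, h | h⟩ := rung_lab h
    · exact B.ne_one b.2 (left_eq_mul.1 h)
    · exact B.ne_one b.2 (left_eq_mul.1 h)

/-- Edges have labels. -/
theorem edg_lab {l : List (Q × B.L)} {x y : Q} (h : Edg a l x y) : ∃ g : B.L, y = x * B.q g := by
  have key : ∀ (g : B.L) (x y : Q), x = y * B.q g → y = x * B.q (B.inv g) := by
    intro g x y h
    rw [h, B.q_inv, mul_inv_cancel_right]
  rcases h with h | h | h
  · exact ⟨a, h.1⟩
  · exact ⟨B.inv a, key a x y h.1⟩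
  · obtain ⟨b, -, h | h⟩ := rung_lab h
    · exact ⟨b.2, h⟩
    · exact ⟨B.inv b.2, key b.2 x y h⟩

/-- The graph. -/
def bandG (a : B.L) (l : List (Q × B.L)) : SimpleGraph Q where
  Adj := fun x y => Edg a l x y
  symm := ⟨fun _ _ h => edg_symm h⟩
  loopless := ⟨fun x h => edg_irrefl x h⟩

end

theorem bands : BandsS.{u, v} := by
  intro Q _ _ B a pre opt hc ha hnd hconn
  have hnd1 : (pre.flatMap (bv a)).Nodup := by
    rw [List.flatMap_append] at hnd
    exact (List.nodup_append.1 hnd).1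
  -- points of optional bands are in no prescribed band
  have hdis : ∀ b ∈ pre, ∀ b' ∈ opt, ∀ x, x ∈ bv a b → x ∈ bv a b' → False := by
    intro b hb b' hb' x hx hx'
    rw [List.flatMap_append] at hnd
    have h1 : x ∈ pre.flatMap (bv a) := List.mem_flatMap.2 ⟨b, hb, hx⟩
    have h2 : x ∈ opt.flatMap (bv a) := List.mem_flatMap.2 ⟨b', hb', hx'⟩
    exact (List.nodup_append.1 hnd).2.2 x h1 x h2 rfl
  have hnd2 : (opt.flatMap (bv a)).Nodup := by
    rw [List.flatMap_append] at hnd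
    exact (List.nodup_append.1 hnd).2.1
  have hnrem : ∀ b' ∈ opt, ∀ x ∈ bv a b', ¬ Rem pre x := by
    rintro b' hb' x hx ⟨b, hb, h⟩
    refine hdis b hb b' hb' x ?_ hx
    rw [mem_bv]; tauto
  set Φ₀ : SimpleGraph Q := bandG a pre with hΦ₀
  have hdg : ∀ x, dg Φ₀ x = 2 := by
    intro x
    obtain ⟨u, v, huv, h⟩ := edg_two hc ha hnd1 x
    exact dg_two u v huv h
  let ι := {b : Q × B.L // b ∈ opt}
  have hne : ∀ i j : ι, i ≠ j → ∀ x ∈ bv a i.1, ∀ y ∈ bv a j.1, x ≠ y := by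
    intro i j hij x hx y hy hxy
    apply hij
    apply Subtype.ext
    exact band_eq hnd2 i.2 j.2 hx (hxy ▸ hy)
  have m1 : ∀ b : Q × B.L, b.1 ∈ bv a b := fun b => mem_bv.2 (Or.inl rfl)
  have m2 : ∀ b : Q × B.L, b.1 * B.q a ∈ bv a b := fun b => mem_bv.2 (Or.inr (Or.inl rfl))
  have m3 : ∀ b : Q × B.L, b.1 * B.q b.2 ∈ bv a b := fun b =>
    mem_bv.2 (Or.inr (Or.inr (Or.inl rfl)))
  have m4 : ∀ b : Q × B.L, b.1 * B.q a * B.q b.2 ∈ bv a b := fun b =>
    mem_bv.2 (Or.inr (Or.inr (Or.inr rfl)))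
  have hpr : ∀ i j : ι, i ≠ j → ∀ x ∈ bv a i.1, ∀ y ∈ bv a i.1, ∀ z ∈ bv a j.1, ∀ w ∈ bv a j.1,
      ¬ pr x y z w := by
    rintro i j hij x hx y hy z hz w hw (⟨h, -⟩ | ⟨h, -⟩)
    · exact hne i j hij x hx z hz h.symm
    · exact hne i j hij y hy z hz h.symm
  obtain ⟨Φ, h1, h2, h3⟩ := gadgets (Φ₀ := Φ₀) (μ := id) (fun x => rfl)
    (fun x => by rw [hdg, if_pos (show id x = x from rfl)]; exact ⟨1, rfl⟩) (ι := ι)
    (fun i => i.1.1) (fun i => i.1.1 * B.q a) (fun i => i.1.1 * B.q i.1.2)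
    (fun i => i.1.1 * B.q a * B.q i.1.2)
    (fun i => Or.inl ⟨rfl, hnrem i.1 i.2 _ (m1 _)⟩)
    (fun i => Or.inl ⟨by
      show i.1.1 * B.q a * B.q i.1.2 = i.1.1 * B.q i.1.2 * B.q a
      rw [mul_assoc, mul_assoc, hc (B.q i.1.2)], hnrem i.1 i.2 _ (m3 _)⟩)
    (fun i j hij => hpr i j hij _ (m1 _) _ (m2 _) _ (m1 _) _ (m2 _))
    (fun i j hij => hpr i j hij _ (m1 _) _ (m2 _) _ (m3 _) _ (m4 _))
    (fun i j hij => hpr i j hij _ (m3 _) _ (m4 _) _ (m1 _) _ (m2 _))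
    (fun i j hij => hpr i j hij _ (m3 _) _ (m4 _) _ (m3 _) _ (m4 _)) Set.univ
    (by
      intro r hr hr1 hr2 x _ y _
      refine hconn r hr ?_ ?_ ?_ x y
      · intro z hz
        exact hr1 _ _ (cn_adj (Φ := Φ₀) (Or.inl ⟨rfl, hz⟩))
      · intro b hb
        exact ⟨hr1 _ _ (cn_adj (Φ := Φ₀) (Or.inr (Or.inr ⟨b, hb, Or.inl ⟨rfl, rfl⟩⟩))),
          hr1 _ _ (cn_adj (Φ := Φ₀)
            (Or.inr (Or.inr ⟨b, hb, Or.inr (Or.inr (Or.inl ⟨rfl, rfl⟩))⟩)))⟩
      · intro b hb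
        exact hr2 ⟨b, hb⟩)
  refine ⟨Φ, fun x => (h2 x).trans (hdg x), ?_, ?_, ?_⟩
  · intro x y
    have h4 : cn Φ id x y := h3 x trivial y trivial
    exact cn.le_equiv (Φ := Φ) (μ := id) (r := fun x y => Relation.EqvGen (fun a b => Φ.Adj a b) x y)
      (Relation.EqvGen.is_equivalence _) (fun x y h => Relation.EqvGen.rel _ _ h)
      (fun x => Relation.EqvGen.refl _) h4
  · intro x y hxy
    rcases h1 x y hxy with h | ⟨i, h | h⟩
    · exact edg_lab h
    · rcases h with ⟨e1, e2⟩ | ⟨e1, e2⟩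
      · exact ⟨i.1.2, by rw [e1, e2]⟩
      · exact ⟨B.inv i.1.2, by rw [e1, e2, B.q_inv, mul_inv_cancel_right]⟩
    · rcases h with ⟨e1, e2⟩ | ⟨e1, e2⟩
      · exact ⟨i.1.2, by rw [e1, e2]⟩
      · exact ⟨B.inv i.1.2, by rw [e1, e2, B.q_inv, mul_inv_cancel_right]⟩
  · intro x y hxy hx
    have hsub : ∀ z, Φ.Adj x z → Φ₀.Adj x z := by
      intro z hz
      rcases h1 x z hz with h | ⟨i, h | h⟩
      · exact h
      · rcases h with ⟨e1, e2⟩ | ⟨e1, e2⟩
        · exact absurd (e1 ▸ m1 _) (hx i.1 i.2)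
        · exact absurd (e1 ▸ m3 _) (hx i.1 i.2)
      · rcases h with ⟨e1, e2⟩ | ⟨e1, e2⟩
        · exact absurd (e1 ▸ m2 _) (hx i.1 i.2)
        · exact absurd (e1 ▸ m4 _) (hx i.1 i.2)
    classical
    have hcard := h2 x
    unfold dg at hcard
    have hss : (Finset.univ.filter (fun z => Φ.Adj x z)) ⊆
        (Finset.univ.filter (fun z => Φ₀.Adj x z)) := by
      intro z hz
      rw [Finset.mem_filter] at hz ⊢
      exact ⟨hz.1, hsub z hz.2⟩
    have heq := Finset.eq_of_subset_of_card_le hss (le_of_eq (by convert hcard.symm))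
    have hm : y ∈ (Finset.univ.filter (fun z => Φ₀.Adj x z)) := by
      rw [Finset.mem_filter]; exact ⟨Finset.mem_univ _, hxy⟩
    rw [← heq, Finset.mem_filter] at hm
    exact hm.2

end Pool.Agent.Lib.MP_688fd0_co.OSF
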